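import Pool.Agent.W792.LL.Stm

/-!
Project LL, task TRIG: trigonometric polynomials are dense, and their coefficients.
-/

set_option autoImplicit false

noncomputable section

namespace Pool.Agent.W308.LL.Trig

open Pool.Agent.W792.LL UnitAddTorus MeasureTheory

local instance : MeasureSpace UnitAddCircle := ⟨AddCircle.haarAddCircle⟩

local instance : Measure.IsAddHaarMeasure (volume : Measure UnitAddCircle) :=
  inferInstanceAs (Measure.IsAddHaarMeasure AddCircle.haarAddCircle)

local instance : IsProbabilityMeasure (volume : Measure UnitAddCircle) :=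
  inferInstanceAs (IsProbabilityMeasure AddCircle.haarAddCircle)

theorem coef_mono {ι : Type} [Fintype ι] (n x : ι → ℤ) :
    ∫ t : UnitAddTorus ι, mFourier (-x) t * mFourier n t = if x = n then 1 else 0 := by
  have h := (orthonormal_iff_ite.1 (orthonormal_mFourier (d := ι))) x n
  simp only [mFourierLp, ContinuousMap.inner_toLp, ← mFourier_neg] at h
  simp only [mul_comm]
  exact h

theorem coef {d : ℕ} (h : (Fin d → ℤ) →₀ ℂ) (x : Fin d → ℤ) :
    mFourierCoeff (trig h) x = h x := by
  unfold mFourierCoeff
  have h1 : ∀ t : UnitAddTorus (Fin d), mFourier (-x) t • trig h t =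
      ∑ n ∈ h.support, h n * (mFourier (-x) t * mFourier n t) := by
    intro t
    rw [smul_eq_mul]
    unfold trig
    rw [Finsupp.sum, ContinuousMap.sum_apply, Finset.mul_sum]
    refine Finset.sum_congr rfl fun n _ => ?_
    rw [ContinuousMap.smul_apply, smul_eq_mul]
    ring
  simp only [h1]
  have h2 : ∫ t : UnitAddTorus (Fin d), ∑ n ∈ h.support, h n * (mFourier (-x) t * mFourier n t) =
      h x := by
    rw [integral_finsetSum]
    · simp only [integral_const_mul, coef_mono, mul_ite, mul_one, mul_zero]
      rw [Finset.sum_ite_eq]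
      split_ifs with h2
      · rfl
      · rw [Finsupp.notMem_support_iff] at h2
        exact h2.symm
    · intro n _
      apply Integrable.const_mul
      have hc : Continuous fun t : UnitAddTorus (Fin d) => mFourier (-x) t * mFourier n t := by
        fun_prop
      exact hc.integrable_of_hasCompactSupport (HasCompactSupport.of_compactSpace _)
  exact h2

theorem dense {d : ℕ} (m : C(UnitAddTorus (Fin d), ℂ)) (ε : ℝ) (hε : 0 < ε) :
    ∃ h : (Fin d → ℤ) →₀ ℂ, ‖trig h - m‖ ≤ ε := by
  have hF : m ∈ (Submodule.span ℂ
      (Set.range (UnitAddTorus.mFourier (d := Fin d)))).topologicalClosure := by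
    rw [UnitAddTorus.span_mFourier_closure_eq_top]; trivial
  rw [← SetLike.mem_coe, Submodule.topologicalClosure_coe, Metric.mem_closure_iff] at hF
  obtain ⟨g, hg, hgF⟩ := hF ε hε
  rw [SetLike.mem_coe, Finsupp.mem_span_range_iff_exists_finsupp] at hg
  obtain ⟨c, hc⟩ := hg
  have hc' : trig c = g := hc
  refine ⟨c, ?_⟩
  rw [hc', ← dist_eq_norm, dist_comm]
  exact hgF.le

theorem main : S_TRIG := fun _ => ⟨fun m ε hε => dense m ε hε, fun h x => coef h x⟩

end Pool.Agent.W308.LL.Trig

end
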